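import Pool.Agent.Q264.HM.Stm

set_option autoImplicit false

/-!
Project HM, job DOUB: lengths of shortest words under binary splittings.
-/

namespace Pool.Agent.Q25.HM.DOUB

open Pool.Agent.Q264.HM Finset

theorem t_DOUB : S_DOUB := by
  classical
  intro S _ W hsplit
  -- the members with a value below `m`
  let A : ℕ → Finset S := fun m => univ.filter fun N' => ∃ m' < m, W N' m'
  have hA : ∀ {m N'}, N' ∈ A m ↔ ∃ m' < m, W N' m' := by
    intro m N'
    simp [A]
  have main : ∀ m N, W N m → (∀ m' < m, ¬ W N m') → m ≤ 2 ^ (A m).card := by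
    intro m
    induction m using Nat.strong_induction_on with
    | _ m ih =>
      intro N hN hmin
      rcases Nat.lt_or_ge m 2 with hm | hm
      · have : 1 ≤ 2 ^ (A m).card := Nat.one_le_two_pow
        omega
      obtain ⟨N₁, N₂, m₁, m₂, h1, h2, h12, hW1, hW2, hadd⟩ := hsplit N m hm hN
      have e1 : ∃ a, W N₁ a := ⟨m₁, hW1⟩
      have e2 : ∃ b, W N₂ b := ⟨m₂, hW2⟩
      have ha : W N₁ (Nat.find e1) := Nat.find_spec e1
      have hb : W N₂ (Nat.find e2) := Nat.find_spec e2
      have hal : Nat.find e1 ≤ m₁ := Nat.find_min' e1 hW1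
      have hbl : Nat.find e2 ≤ m₂ := Nat.find_min' e2 hW2
      have ham : ∀ m' < Nat.find e1, ¬ W N₁ m' := fun m' h => Nat.find_min e1 h
      have hbm : ∀ m' < Nat.find e2, ¬ W N₂ m' := fun m' h => Nat.find_min e2 h
      have hge : m ≤ Nat.find e1 + Nat.find e2 := by
        by_contra hlt
        exact hmin _ (by omega) (hadd _ _ ha hb)
      have step : ∀ (N' : S) (c : ℕ), W N' c → (∀ m' < c, ¬ W N' m') → c < m →
          2 * c ≤ 2 ^ (A m).card := by
        intro N' c hc hcm hcl
        have hI := ih c hcl N' hc hcm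
        have hss : A c ⊂ A m := by
          rw [Finset.ssubset_iff_of_subset]
          · exact ⟨N', hA.2 ⟨c, hcl, hc⟩, fun h => by
              obtain ⟨m', hm', hw⟩ := hA.1 h
              exact hcm m' hm' hw⟩
          · intro x hx
            obtain ⟨m', hm', hw⟩ := hA.1 hx
            exact hA.2 ⟨m', hm'.trans hcl, hw⟩
        have hcard := Finset.card_lt_card hss
        calc 2 * c ≤ 2 * 2 ^ (A c).card := Nat.mul_le_mul_left _ hI
          _ = 2 ^ ((A c).card + 1) := by rw [pow_succ]; ring
          _ ≤ 2 ^ (A m).card := Nat.pow_le_pow_right (by norm_num) hcard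
      rcases le_total (Nat.find e1) (Nat.find e2) with h | h
      · have := step N₂ _ hb hbm (by omega)
        omega
      · have := step N₁ _ ha ham (by omega)
        omega
  intro N m hN
  have e : ∃ a, W N a := ⟨m, hN⟩
  refine ⟨Nat.find e, ?_, Nat.find_spec e⟩
  refine (main _ N (Nat.find_spec e) fun m' h => Nat.find_min e h).trans ?_
  exact Nat.pow_le_pow_right (by norm_num) (Finset.card_le_univ _)

end Pool.Agent.Q25.HM.DOUB
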